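import Pool.Agent.H45.UZ.TarF

/-! FRN: the components of the free system. -/

set_option linter.unusedVariables false

open Ordinal Order Set
open scoped ZFSet

namespace SE.UZ

open SF

namespace FRNm

theorem stf_eq {P : V → Prop} {X : V} (h : ∀ x, x ∈ X ↔ P x) : stf P = X := by
  have hex : ∃ X : V, ∀ x, x ∈ X ↔ P x := ⟨X, h⟩
  unfold stf
  rw [dif_pos hex]
  ext z
  rw [Classical.choose_spec hex z, h z]

theorem dfb_at5 {P : V → V → V → V → V → Prop}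
    (hP : Dfb ZFm (fun _ v => P (v 0) (v 1) (v 2) (v 3) (v 4)))
    {f0 f1 f2 f3 f4 : (V → Prop) → (ℕ → V) → V} (h0 : Tm ZFm f0) (h1 : Tm ZFm f1)
    (h2 : Tm ZFm f2) (h3 : Tm ZFm f3) (h4 : Tm ZFm f4) :
    Dfb ZFm (fun M v => P (f0 M v) (f1 M v) (f2 M v) (f3 M v) (f4 M v)) :=
  hP.comp (args [f0, f1, f2, f3, f4]) (tm_args _ (by
    intro a ha; simp only [List.mem_cons, List.not_mem_nil, or_false] at ha
    rcases ha with rfl | rfl | rfl | rfl | rfl <;> assumption))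

theorem dfb_at4 {P : V → V → V → V → Prop}
    (hP : Dfb ZFm (fun _ v => P (v 0) (v 1) (v 2) (v 3)))
    {f0 f1 f2 f3 : (V → Prop) → (ℕ → V) → V} (h0 : Tm ZFm f0) (h1 : Tm ZFm f1)
    (h2 : Tm ZFm f2) (h3 : Tm ZFm f3) :
    Dfb ZFm (fun M v => P (f0 M v) (f1 M v) (f2 M v) (f3 M v)) :=
  hP.comp (args [f0, f1, f2, f3]) (tm_args _ (by
    intro a ha; simp only [List.mem_cons, List.not_mem_nil, or_false] at ha
    rcases ha with rfl | rfl | rfl | rfl <;> assumption))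

theorem dfb_all_lt {R : ℕ → (V → Prop) → (ℕ → V) → Prop} (h : ∀ e, Dfb ZFm (R e))
    (P : ℕ → Prop) (n : ℕ) : Dfb ZFm (fun M v => ∀ e < n, P e → R e M v) := by
  induction n with
  | zero => exact Dfb.tru.congr fun M k v hv => by simp
  | succ n ih =>
    by_cases hP : P n
    · refine (ih.and (h n)).congr fun M k v hv => ?_
      constructor
      · rintro ⟨h1, h2⟩ e he hPe
        rcases Nat.lt_succ_iff_lt_or_eq.1 he with h3 | h3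
        · exact h1 e h3 hPe
        · rw [h3]
          exact h2
      · intro h1
        exact ⟨fun e he hPe => h1 e (Nat.lt_succ_of_lt he) hPe, h1 n (Nat.lt_succ_self n) hP⟩
    · refine ih.congr fun M k v hv => ?_
      constructor
      · intro h1 e he hPe
        rcases Nat.lt_succ_iff_lt_or_eq.1 he with h3 | h3
        · exact h1 e h3 hPe
        · rw [h3] at hPe
          exact absurd hPe hP
      · intro h1 e he hPe
        exact h1 e (Nat.lt_succ_of_lt he) hPe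

/-- the first-order part of `Isl` -/
def IslR (l : ℕ) (S : ℕ → Prop) (L H π ρ ρ' : V) : Prop :=
  ρ ∈ H ∧ ρ' ∈ H ∧ Cld L ρ ∧ Cld L ρ' ∧ Iso L π ρ ρ' ∅ ∧ AgZ L π ρ ∅ ∧
  (∀ i ∈ ρ, Gl L i) ∧ (∀ i ∈ ρ', Gl L i) ∧
  (∀ i ∈ ρ, ∀ e < l + 1, 3 ≤ e → (kd i = nS e ↔ kd (app π i) = nS e)) ∧
  ∀ i ∈ ρ, ∀ e < l + 1, S e → kd i = nS e →
    vw i ⊆ ρ ∧ vw (app π i) = im π (vw i) ∧ tm (app π i) = tm i

theorem isl_iff {D : Cx} {l : ℕ} {S : ℕ → Prop} (hS : Sl l S) {π ρ ρ' : V} :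
    Isl D l S π ρ ρ' ↔ D.N π ∧ IslR l S D.L D.H π ρ ρ' := by
  constructor
  · intro h
    refine ⟨h.i.n, h.i.h, h.i.h', h.i.c, h.i.c', h.i.i, h.z, h.c.g, h.c'.g, ?_, ?_⟩
    · intro i hi e he h3
      exact h.k i hi e h3 (by omega)
    · intro i hi e he hSe hk
      exact h.v i hi e hSe hk
  · rintro ⟨h0, h1, h2, h3, h4, h5, h6, h7, h8, h9, h10⟩
    refine ⟨⟨h0, h1, h2, h3, h4, h5⟩, h6, ⟨h1, h3, h7⟩, ⟨h2, h4, h8⟩, ?_, ?_⟩
    · intro i hi e he hel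
      exact h9 i hi e (by omega) he
    · intro i hi e hSe hk
      exact h10 i hi e (by have := hS e hSe; omega) hSe hk

theorem dfb_islR (hBBb : T_BBb) (hBBc : T_BBc) (hQI4d : T_QI4d) (l : ℕ) (S : ℕ → Prop) :
    Dfb ZFm (fun _ v => IslR l S (v 0) (v 1) (v 2) (v 3) (v 4)) := by
  obtain ⟨-, -, hCld, -⟩ := hBBb
  obtain ⟨-, -, -, him, hIso, hAgZ, -⟩ := hBBc
  obtain ⟨hkd, -, htm, hvw, -, -, -, hGl, -⟩ := hQI4d
  have kt := ktr_zfm
  have c : ∀ f g : (V → Prop) → (ℕ → V) → V, Tm ZFm f → Tm ZFm g →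
      Dfb ZFm (fun M v => Cld (f M v) (g M v)) := fun f g hf hg =>
    Dfb.at2 (P := fun _ x y => Cld x y) hCld hf hg
  have g : ∀ f g : (V → Prop) → (ℕ → V) → V, Tm ZFm f → Tm ZFm g →
      Dfb ZFm (fun M v => Gl (f M v) (g M v)) := fun f g hf hg =>
    Dfb.at2 (P := fun _ x y => Gl x y) hGl hf hg
  have kd' : ∀ f : (V → Prop) → (ℕ → V) → V, Tm ZFm f → Tm ZFm (fun M v => kd (f M v)) :=
    fun f hf => Tm.at1 (F := fun _ x => kd x) hkd hf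
  have tm' : ∀ f : (V → Prop) → (ℕ → V) → V, Tm ZFm f → Tm ZFm (fun M v => tm (f M v)) :=
    fun f hf => Tm.at1 (F := fun _ x => tm x) htm hf
  have vw' : ∀ f : (V → Prop) → (ℕ → V) → V, Tm ZFm f → Tm ZFm (fun M v => vw (f M v)) :=
    fun f hf => Tm.at1 (F := fun _ x => vw x) hvw hf
  have im' : ∀ f g : (V → Prop) → (ℕ → V) → V, Tm ZFm f → Tm ZFm g →
      Tm ZFm (fun M v => im (f M v) (g M v)) := fun f g hf hg =>
    Tm.at2 (F := fun _ x y => im x y) him hf hg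
  unfold IslR
  refine (Dfb.mem (Tm.var 3) (Tm.var 1)).and ((Dfb.mem (Tm.var 4) (Tm.var 1)).and
    ((c _ _ (Tm.var 0) (Tm.var 3)).and ((c _ _ (Tm.var 0) (Tm.var 4)).and
    ((dfb_at5 (P := Iso) hIso (Tm.var 0) (Tm.var 2) (Tm.var 3) (Tm.var 4) Tm.empty).and
    ((dfb_at4 (P := AgZ) hAgZ (Tm.var 0) (Tm.var 2) (Tm.var 3) Tm.empty).and
    (Dfb.and ?_ (Dfb.and ?_ (Dfb.and ?_ ?_))))))))
  · exact (Dfb.ball (R := fun _ v => Gl (v 1) (v 0)) kt (Tm.var 3)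
      (g _ _ (Tm.var 1) (Tm.var 0))).congr fun M k v hv => Iff.rfl
  · exact (Dfb.ball (R := fun _ v => Gl (v 1) (v 0)) kt (Tm.var 4)
      (g _ _ (Tm.var 1) (Tm.var 0))).congr fun M k v hv => Iff.rfl
  · refine (Dfb.ball (R := fun _ v => ∀ e < l + 1, 3 ≤ e →
      (kd (v 0) = nS e ↔ kd (app (v 3) (v 0)) = nS e)) kt (Tm.var 3) ?_).congr
      fun M k v hv => Iff.rfl
    exact dfb_all_lt (R := fun e _ v => (kd (v 0) = nS e ↔ kd (app (v 3) (v 0)) = nS e))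
      (fun e => (Dfb.eq (kd' _ (Tm.var 0)) (Tm.nS e)).iff
        (Dfb.eq (kd' _ (Tm.app (Tm.var 3) (Tm.var 0))) (Tm.nS e))) (fun e => 3 ≤ e) (l + 1)
  · refine (Dfb.ball (R := fun _ v => ∀ e < l + 1, S e → (kd (v 0) = nS e →
      vw (v 0) ⊆ v 4 ∧ vw (app (v 3) (v 0)) = im (v 3) (vw (v 0)) ∧
        tm (app (v 3) (v 0)) = tm (v 0))) kt (Tm.var 3) ?_).congr
      fun M k v hv => Iff.rfl
    exact dfb_all_lt (R := fun e _ v => (kd (v 0) = nS e →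
      vw (v 0) ⊆ v 4 ∧ vw (app (v 3) (v 0)) = im (v 3) (vw (v 0)) ∧
        tm (app (v 3) (v 0)) = tm (v 0)))
      (fun e => (Dfb.eq (kd' _ (Tm.var 0)) (Tm.nS e)).imp
        ((Dfb.subset (vw' _ (Tm.var 0)) (Tm.var 4)).and
        ((Dfb.eq (vw' _ (Tm.app (Tm.var 3) (Tm.var 0)))
          (im' _ _ (Tm.var 3) (vw' _ (Tm.var 0)))).and
        (Dfb.eq (tm' _ (Tm.app (Tm.var 3) (Tm.var 0))) (tm' _ (Tm.var 0)))))) S (l + 1)

end FRNm

open FRNm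

theorem pf_FRN (hBBb : T_BBb) (hBBc : T_BBc) (hBC : T_BC) (hBJ : T_BJ) (hBK : T_BK) (hBL : T_BL)
    (hQRN : T_QRN) (hQI1 : T_QI1) (hQI4d : T_QI4d) (hPDB : T_PDB) (hFRd : T_FRd) : T_FRN := by
  intro D κ hA b hb b' hb'
  have ok := hA.ok
  have hZ : ZFm D.N := ok.zfc.toZFCm.toZFm
  have hH : ∀ x ∈ D.H, D.N x := (hBJ D ok).2.2.1
  have hNL : D.N D.L := (hBJ D ok).1
  have hsl' : Sl (b.l + 1) b.S := by
    intro e he
    have := hb.sl e he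
    omega
  have hcs : ∀ B ∈ b.Ob, b.u B ∈ D.H ∧ Cld D.L (b.u B) ∧ D.N (b.u B) ∧ Tr (b.u B) := by
    intro B hB
    have h := hb.cs B hB
    exact ⟨h.h, h.c, hH _ h.h, fun i hi => (h.c i hi).2⟩
  obtain ⟨⟨XO, NO, hXO⟩, ⟨XR, NR, hXR⟩, ⟨XS, NS, hXS⟩, hdec⟩ := hFRd D κ hA b hb
  -- the sets
  have eO : b'.Ob = XO := by rw [hb']; exact stf_eq hXO
  have eR : b'.Rc = XR := by rw [hb']; exact stf_eq hXR
  have eS : b'.Sc = XS := by rw [hb']; exact stf_eq hXS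
  have eU : b'.U = resS XO fun B => b.u B := by
    have h : b'.U = resS (stf (b.Of D)) fun B => b.u B := by rw [hb']; rfl
    rw [h, stf_eq hXO]
  set Xl : V := b.le.sep fun z => z = ZFSet.pair (fst z) (snd z) ∧ fst z ∈ XO ∧ snd z ∈ XO
    with hXl
  have mXl : ∀ z, z ∈ Xl ↔ ∃ C B, b.Of D C ∧ b.Of D B ∧ b.Le C B ∧ z = ZFSet.pair C B := by
    intro z
    rw [hXl, ZFSet.mem_sep]
    constructor
    · rintro ⟨h1, h2, h3, h4⟩
      refine ⟨fst z, snd z, (hXO _).1 h3, (hXO _).1 h4, ?_, h2⟩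
      unfold BS.Le
      rw [← h2]
      exact h1
    · rintro ⟨C, B, h1, h2, h3, rfl⟩
      rw [fst_pair, snd_pair]
      exact ⟨h3, rfl, (hXO _).2 h1, (hXO _).2 h2⟩
  have el : b'.le = Xl := by rw [hb']; exact stf_eq mXl
  set Xt : V := (ZFSet.prod D.H XO).sep fun z => z = ZFSet.pair (fst z) (snd z) ∧
    IslR (b.l + 1) b.S D.L D.H (fst z) (app b.U (snd z)) (im (fst z) (app b.U (snd z)))
    with hXt
  have mXt : ∀ z, z ∈ Xt ↔ ∃ π B ρ', b.Of D B ∧ Isl D (b.l + 1) b.S π (b.u B) ρ' ∧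
      z = ZFSet.pair π B := by
    intro z
    rw [hXt, ZFSet.mem_sep]
    constructor
    · rintro ⟨h1, h2, h3⟩
      rw [h2, ZFSet.pair_mem_prod] at h1
      exact ⟨fst z, snd z, _, (hXO _).1 h1.2, (isl_iff hsl').2 ⟨hH _ h1.1, h3⟩, h2⟩
    · rintro ⟨π, B, ρ', h1, h2, rfl⟩
      have hq := (hQI1 D ok _ _ π (b.u B) ρ' hsl' h2).1
      rw [fst_pair, snd_pair, ZFSet.pair_mem_prod]
      refine ⟨⟨hq.2.2.2.1, (hXO _).2 h1⟩, rfl, ?_⟩
      have h3 : im π (app b.U B) = ρ' := hq.2.2.1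
      rw [h3]
      exact ((isl_iff hsl').1 h2).2
  have et : b'.tr = resS Xt fun z => b.T (fst z) (snd z) := by
    have h : b'.tr = resS (stf fun z => ∃ π B ρ', b.Of D B ∧
        Isl D (b.l + 1) b.S π (b.u B) ρ' ∧ z = ZFSet.pair π B) fun z => b.T (fst z) (snd z) := by
      rw [hb']; rfl
    rw [h, stf_eq mXt]
  -- they are in the ground model
  have NU : D.N (resS XO fun B => b.u B) := by
    have h := (Tm.resS (f := fun _ v => v 0) (g := fun _ v => app (v 2) (v 0)) (Tm.var 0)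
      (Tm.app (Tm.var 2) (Tm.var 0))).1 D.N hZ (cons XO fun _ => b.U)
      (In.cons (fun _ => hb.nU) NO)
    exact h
  have Nl : D.N Xl := by
    have h := (Tm.sep (R := fun _ v => v 0 = ZFSet.pair (fst (v 0)) (snd (v 0)) ∧
      fst (v 0) ∈ v 1 ∧ snd (v 0) ∈ v 1) (f := fun _ v => v 1)
      ((Dfb.eq (Tm.var 0) (Tm.pair (Tm.fst (Tm.var 0)) (Tm.snd (Tm.var 0)))).and
        ((Dfb.mem (Tm.fst (Tm.var 0)) (Tm.var 1)).and
        (Dfb.mem (Tm.snd (Tm.var 0)) (Tm.var 1)))) (Tm.var 1)).1 D.N hZ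
      (cons XO fun _ => b.le) (In.cons (fun _ => hb.nL) NO)
    exact h
  have Nt0 : D.N Xt := by
    -- variables: 0 = XO, 1 = L, 2 = H, 3.. = U
    have hR : Dfb ZFm (fun _ v => v 0 = ZFSet.pair (fst (v 0)) (snd (v 0)) ∧
        IslR (b.l + 1) b.S (v 2) (v 3) (fst (v 0)) (app (v 4) (snd (v 0)))
          (im (fst (v 0)) (app (v 4) (snd (v 0))))) := by
      refine (Dfb.eq (Tm.var 0) (Tm.pair (Tm.fst (Tm.var 0)) (Tm.snd (Tm.var 0)))).and ?_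
      exact dfb_at5 (P := IslR (b.l + 1) b.S) (dfb_islR hBBb hBBc hQI4d (b.l + 1) b.S) (Tm.var 2)
        (Tm.var 3) (Tm.fst (Tm.var 0)) (Tm.app (Tm.var 4) (Tm.snd (Tm.var 0)))
        (Tm.at2 (F := fun _ x y => im x y) hBBc.2.2.2.1 (Tm.fst (Tm.var 0))
          (Tm.app (Tm.var 4) (Tm.snd (Tm.var 0))))
    have h := (Tm.sep hR (f := fun _ v => ZFSet.prod (v 2) (v 0))
      (Tm.prod (Tm.var 2) (Tm.var 0))).1 D.N hZ
      (cons XO (cons D.L (cons D.H fun _ => b.U)))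
      (In.cons (In.cons (In.cons (fun _ => hb.nU) ok.hN) hNL) NO)
    exact h
  have Nt : D.N (resS Xt fun z => b.T (fst z) (snd z)) := by
    have h := (Tm.resS (f := fun _ v => v 0)
      (g := fun _ v => app (v 2) (ZFSet.pair (fst (v 0)) (snd (v 0)))) (Tm.var 0)
      (Tm.app (Tm.var 2) (Tm.pair (Tm.fst (Tm.var 0)) (Tm.snd (Tm.var 0))))).1 D.N hZ
      (cons Xt fun _ => b.tr) (In.cons (fun _ => hb.nT) Nt0)
    exact h
  refine ⟨?_, ?_, ?_, ?_, ?_, ?_, ?_, ?_, ?_⟩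
  · rw [hb']
    exact ⟨rfl, rfl⟩
  · rw [eO, eR, eS, eU, el, et]
    exact ⟨NO, NU, Nl, NR, Nt, NS⟩
  · intro B
    rw [eO, hXO]
  · intro B hB
    change app b'.U B = b.u B
    rw [eU, app_resS ((hXO B).2 hB)]
  · intro C B
    change ZFSet.pair C B ∈ b'.le ↔ _
    rw [el, mXl]
    constructor
    · rintro ⟨C', B', h1, h2, h3, h4⟩
      obtain ⟨rfl, rfl⟩ := ZFSet.pair_inj.1 h4
      exact ⟨h1, h2, h3⟩
    · rintro ⟨h1, h2, h3⟩
      exact ⟨C, B, h1, h2, h3, rfl⟩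
  · intro C B
    change ZFSet.pair C B ∈ b'.Rc ↔ _
    rw [eR, hXR]
    constructor
    · rintro ⟨C', B', h1, h2, h3, h4, h5, h6⟩
      obtain ⟨rfl, rfl⟩ := ZFSet.pair_inj.1 h6
      exact ⟨h1, h2, h3, h4, h5⟩
    · rintro ⟨h1, h2, h3, h4, h5⟩
      exact ⟨C, B, h1, h2, h3, h4, h5, rfl⟩
  · intro π B ρ' hB hI
    change app b'.tr (ZFSet.pair π B) = b.T π B
    rw [et, app_resS ((mXt _).2 ⟨π, B, ρ', hB, hI, rfl⟩), fst_pair, snd_pair]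
  · intro B p a x h
    rw [eS, hXS] at h
    obtain ⟨B', p', a', x', h1, h2, h3, h4, h5, -⟩ := h
    obtain ⟨e1, h6⟩ := ZFSet.pair_inj.1 h5
    obtain ⟨e2, h7⟩ := ZFSet.pair_inj.1 h6
    obtain ⟨e3, e4⟩ := ZFSet.pair_inj.1 h7
    rw [e1, e2, e3, e4]
    exact ⟨h1, h2, h3, h4⟩
  · intro B hB ρ Nρ cρ hsub G hG a x
    obtain ⟨-, cB, NB, tB⟩ := hcs B hB.1
    have hev := (hBK D ok ρ G Nρ cρ hG).1
    obtain ⟨-, hgs⟩ := hBL D ok ρ G Nρ cρ hG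
    obtain ⟨hG1, hgsub, -, hmem, -⟩ := hgs (b.u B) NB hsub tB
    obtain ⟨hn, -⟩ := hQRN D ok ρ G (b.u B) Nρ cρ hG NB hsub tB
    have hevv : ∀ Y, D.N Y → Nam D.L (b.u B) Y → ev (gs G (b.u B)) Y = ev G Y := by
      intro Y hY nY
      exact (hev (b.u B) Y NB hsub tB hY nY).2.2.2.2.2 (b.u B) (fun z hz => hz)
    constructor
    · rintro ⟨p, hp, a', x', h, h1, h2⟩
      rw [eS, hXS] at h
      obtain ⟨B', p', a'', x'', k1, k2, k3, k4, k5, k6⟩ := h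
      obtain ⟨e1, k7⟩ := ZFSet.pair_inj.1 k5
      obtain ⟨e2, k8⟩ := ZFSet.pair_inj.1 k7
      obtain ⟨e3, e4⟩ := ZFSet.pair_inj.1 k8
      subst e1 e2 e3 e4
      refine ⟨(hn a).2 ⟨a', k3.1, k3.2, h1⟩, (hn x).2 ⟨x', k4.1, k4.2, h2⟩, ?_⟩
      have hpd : dm p ⊆ b.u B := ((hBC.2.2.2.1 D.L (b.u B) p).1 k2).2.1
      have h3 := k6 (gs G (b.u B)) hG1 ((hmem p).2 ⟨hp, hpd⟩)
      rw [hevv a' k3.1 k3.2, hevv x' k4.1 k4.2, h1, h2] at h3
      exact h3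
    · rintro ⟨ha, hx, hS⟩
      obtain ⟨a', Na, na, ha'⟩ := (hn a).1 ha
      obtain ⟨x', Nx, nx, hx'⟩ := (hn x).1 hx
      have hD := hdec B hB a' x' Na na Nx nx
      obtain ⟨-, -, -, hf, -⟩ := hPDB D ok (b.u B) NB cB _ hD
      have hX : b.Sf D B (gs G (b.u B)) (ev (gs G (b.u B)) a') (ev (gs G (b.u B)) x') := by
        rw [hevv a' Na na, hevv x' Nx nx, ha', hx']
        exact hS
      obtain ⟨p, hp, hpP, hpf⟩ := hf (gs G (b.u B)) hG1 hX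
      refine ⟨p, hgsub hp, a', x', ?_, ha', hx'⟩
      rw [eS, hXS]
      exact ⟨B, p, a', x', hB, hpP, ⟨Na, na⟩, ⟨Nx, nx⟩, rfl, hpf⟩

end SE.UZ
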