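import Pool.Agent.H45.UZ.TarF

/-! FRa: all axioms except (b3), (b4), (b6) for the free system. -/

set_option linter.unusedVariables false

open Ordinal Order Set
open scoped ZFSet

namespace SE.UZ

open SF

theorem pf_FRa (hBJ : T_BJ) (hBL : T_BL) (hQRN : T_QRN) (hQI1 : T_QI1) (hQI1i : T_QI1i)
    (hQI3 : T_QI3) (hFR1 : T_FR1) (hFR2 : T_FR2) (hFR5 : T_FR5) (hFRm : T_FRm)
    (hFRN : T_FRN) : T_FRa := by
  intro D κ hA b hb b' hb'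
  have ok := hA.ok
  have hH : ∀ x ∈ D.H, D.N x := (hBJ D ok).2.2.1
  obtain ⟨⟨nl, nS⟩, -, nO, nU, nLe, nRi, nT, nSc, nSe⟩ := hFRN D κ hA b hb b' hb'
  clear hb'
  have hsl : Sl b.l b.S := by
    intro e he
    have := hb.sl e he
    omega
  have hsl' : Sl (b.l + 1) b.S := by
    intro e he
    have := hb.sl e he
    omega
  have hcs : ∀ B ∈ b.Ob, b.u B ∈ D.H ∧ Cld D.L (b.u B) ∧ D.N (b.u B) ∧ Tr (b.u B) := by
    intro B hB
    have h := hb.cs B hB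
    exact ⟨h.h, h.c, hH _ h.h, fun i hi => (h.c i hi).2⟩
  have hOfO : ∀ B, b.Of D B → B ∈ b.Ob := fun B h => h.1
  have hvw : ∀ B ∈ b.Ob, Vws b.S (b.u B) := fun B hB i hi e he hk => hb.rk B hB i hi e he hk
  obtain ⟨f1, -, -, f4, -⟩ := hFR1 D κ hA b hb
  have hgsT : ∀ ρ G, D.N ρ → Cld D.L ρ → D.Gn ρ G → gs G ρ = G := fun ρ G h1 h2 h3 =>
    (hBL D ok ρ G h1 h2 h3).1
  -- isomorphisms of level `l + 1`
  have hdown : ∀ π ρ ρ', Isl D (b.l + 1) b.S π ρ ρ' → Isl D b.l b.S π ρ ρ' := by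
    intro π ρ ρ' h
    exact (hQI1 D ok _ _ π ρ ρ' hsl' h).2.2.2.1 b.l b.S (by omega) fun _ h => h
  refine ⟨?_, ?_, ?_, ?_, ?_, ?_, ?_, ?_, ?_, ?_, ?_, ?_, ?_, ?_⟩
  · rw [nl, nS]
    refine ⟨by have := hb.l3; omega, ?_⟩
    intro k hk
    have := hb.sl k hk
    omega
  · intro B hB
    rw [nO] at hB
    rw [nU B hB]
    exact hb.cs B hB.1
  · intro B hB
    rw [nO] at hB
    rw [nU B hB, nS]
    exact hb.rk B hB.1
  · intro C B h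
    rw [nLe] at h
    obtain ⟨hC, hB, hle⟩ := h
    rw [nO, nO, nU C hC, nU B hB]
    exact ⟨hC, hB, (hb.leO C B hle).2.2⟩
  · intro B hB
    rw [nO] at hB
    rw [nLe]
    exact ⟨hB, hB, hb.rfl B hB.1⟩
  · intro C B A h1 h2
    rw [nLe] at h1 h2 ⊢
    exact ⟨h1.1, h2.2.1, hb.trn C B A h1.2.2 h2.2.2⟩
  · intro C C' B h1 h2 h3
    rw [nLe] at h1 h2 ⊢
    rw [nU C h1.1, nU C' h2.1] at h3
    exact ⟨h1.1, h2.1, hb.sub C C' B h1.2.2 h2.2.2 h3⟩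
  · intro C C' B h1 h2
    rw [nLe] at h1 h2
    obtain ⟨E, hE, hEu⟩ := hb.meet C C' B h1.2.2 h2.2.2
    have hEf := f1 E B hE h1.2.1
    refine ⟨E, (nLe _ _).2 ⟨hEf, h1.2.1, hE⟩, ?_⟩
    rw [nU E hEf, nU C h1.1, nU C' h2.1, hEu]
  · intro B hB π ρ' hI
    rw [nO] at hB
    rw [nl, nS, nU B hB] at hI
    have hT := nT π B ρ' hB hI
    have hOf := f4 π B ρ' hB hI
    obtain ⟨t1, t2, t3, t4⟩ := hb.tr B hB.1 π ρ' (hdown _ _ _ hI)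
    have hq := hQI1 D ok _ _ π (b.u B) ρ' hsl' hI
    rw [hT]
    refine ⟨(nO _).2 hOf, by rw [nU _ hOf, t2], ?_, ?_⟩
    · have hinv : Isl D (b.l + 1) b.S (inv π) (b.u (b.T π B)) (b.u B) := by
        rw [t2]
        exact hq.1.2.2.2.2.2.2
      rw [nT (inv π) (b.T π B) (b.u B) hOf hinv, t3]
    · intro C hC
      rw [nLe] at hC
      obtain ⟨hCf, -, hle⟩ := hC
      obtain ⟨-, cC, NC, tC⟩ := hcs C hCf.1
      have hIC := (hq.2.2.2.2 (b.u C) NC (hb.leO C B hle).2.2 tC (hvw C hCf.1)).1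
      rw [nU C hCf, nT _ C _ hCf hIC, nLe]
      exact ⟨f4 _ C _ hCf hIC, hOf, t4 C hle⟩
  · intro B hB
    rw [nO] at hB
    rw [nU B hB]
    have hI := (hQI1i D ok (b.l + 1) b.S (b.u B) hsl' (hb.cs B hB.1) (hvw B hB.1)).1
    rw [nT _ B _ hB hI]
    exact hb.trI B hB.1
  · intro B hB π ρ' hI G hG a x
    rw [nO] at hB
    rw [nl, nS, nU B hB] at hI
    rw [nU B hB] at hG
    obtain ⟨-, cB, NB, tB⟩ := hcs B hB.1
    have hT := nT π B ρ' hB hI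
    have hOf := f4 π B ρ' hB hI
    obtain ⟨t1, t2, t3, t4⟩ := hb.tr B hB.1 π ρ' (hdown _ _ _ hI)
    have him : im π (b.u B) = ρ' := (hQI1 D ok _ _ π (b.u B) ρ' hsl' hI).1.2.2.1
    obtain ⟨hG', -, -, -, -, h3⟩ := hQI3 D ok _ b.S π (b.u B) ρ' hsl' hI G hG _ rfl
    obtain ⟨-, -, hRR, -⟩ := h3 (b.u B) NB (fun z hz => hz) tB
    rw [him] at hRR
    obtain ⟨-, cT, NT, tT⟩ := hcs _ t1
    rw [t2] at cT NT tT
    rw [hT, nSe B hB (b.u B) NB cB (fun z hz => hz) G hG a x, hgsT _ _ NB cB hG]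
    rw [nSe (b.T π B) hOf ρ' NT cT (by rw [t2]) _ hG' a x, t2,
      hgsT _ _ NT cT hG', hRR, hRR, hFR2 D κ hA b hb π B ρ' hB hI G hG a x]
  · intro C B h
    rw [nRi] at h
    obtain ⟨hC, hB, hr, h1, h2⟩ := h
    obtain ⟨hle, hr2⟩ := hb.rc C B hr
    refine ⟨(nLe _ _).2 ⟨hC, hB, hle⟩, ?_⟩
    intro C0 h0
    rw [nLe] at h0
    obtain ⟨h3, h4⟩ := hFRm D κ hA b hb C0 C B h0.2.2 hC hle h1 h2
    exact (nRi _ _).2 ⟨h0.1, hB, hr2 C0 h0.2.2, h3, h4⟩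
  · intro B p a x h
    obtain ⟨h1, h2, h3, h4⟩ := nSc B p a x h
    rw [nO, nU B h1]
    exact ⟨h1, h2, h3, h4⟩
  · intro C B hle G hG a x ha hx
    rw [nLe] at hle
    obtain ⟨hC, hB, hle⟩ := hle
    rw [nU B hB] at hG
    rw [nU C hC] at ha hx
    obtain ⟨-, cB, NB, tB⟩ := hcs B hB.1
    obtain ⟨-, cC, NC, tC⟩ := hcs C hC.1
    have hCB := (hb.leO C B hle).2.2
    obtain ⟨-, -, -, -, -, -, -, hmon, -⟩ := hQRN D ok (b.u B) G (b.u C) NB cB hG NC hCB tC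
    have ha' := hmon (b.u B) NB hCB (fun z hz => hz) tB a ha
    have hx' := hmon (b.u B) NB hCB (fun z hz => hz) tB x hx
    rw [nSe C hC (b.u B) NB cB hCB G hG a x, nSe B hB (b.u B) NB cB (fun z hz => hz) G hG a x,
      hgsT _ _ NB cB hG, hFR5 D κ hA b hb C B hle hB G hG a x ha hx]
    exact ⟨fun h => ⟨ha', hx', h.2.2⟩, fun h => ⟨ha, hx, h.2.2⟩⟩

end SE.UZ
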