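import Pool.Agent.H45.UZ.TarF

/-! QSE: secured facts depend only on the restriction of the filter; persistence. -/

set_option linter.unusedVariables false

open Ordinal Order Set
open scoped ZFSet

namespace SE.UZ

open SF

namespace QSEm

theorem tr_of_cld {L ρ : V} (h : Cld L ρ) : Tr ρ := fun i hi => (h i hi).2

theorem sl_of_ok {D : Cx} {κ : V} {b : BS} (hb : b.Ok D κ) : Sl b.l b.S := by
  intro e he
  have := hb.sl e he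
  omega

end QSEm

open QSEm

theorem pf_QSE (hAH : T_AH) (hBC : T_BC) (hBJ : T_BJ) (hBK : T_BK) (hBL : T_BL) (hQRN : T_QRN)
    (hQI1 : T_QI1) (hQI3 : T_QI3) : T_QSE := by
  intro D κ hA b hb
  have ok := hA.ok
  have hH : ∀ x ∈ D.H, D.N x := (hBJ D ok).2.2.1
  -- basic facts on objects
  have hcs : ∀ B ∈ b.Ob, b.u B ∈ D.H ∧ Cld D.L (b.u B) ∧ D.N (b.u B) ∧ Tr (b.u B) := by
    intro B hB
    have h := hb.cs B hB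
    exact ⟨h.h, h.c, hH _ h.h, tr_of_cld h.c⟩
  have hdm : ∀ B p a x, ZFSet.pair B (ZFSet.pair p (ZFSet.pair a x)) ∈ b.Sc →
      dm p ⊆ b.u B := by
    intro B p a x h
    have h1 := (hb.sc B p a x h).2.1
    exact ((hBC.2.2.2.1 D.L (b.u B) p).1 h1).2.1
  -- part 1 (i)
  have s1 : ∀ B ∈ b.Ob, ∀ ρ, D.N ρ → Cld D.L ρ → b.u B ⊆ ρ → ∀ G, D.Gn ρ G → ∀ a x,
      (b.Se B G a x ↔ b.Se B (gs G (b.u B)) a x) := by
    intro B hB ρ Nρ cρ hsub G hG a x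
    obtain ⟨-, cB, NB, tB⟩ := hcs B hB
    have hev := (hBK D ok ρ G Nρ cρ hG).1
    obtain ⟨-, hgs⟩ := hBL D ok ρ G Nρ cρ hG
    obtain ⟨-, hgsub, -, hmem, -⟩ := hgs (b.u B) NB hsub tB
    constructor
    · rintro ⟨p, hp, a', x', h, h1, h2⟩
      obtain ⟨-, -, ⟨Na, na⟩, Nx, nx⟩ := hb.sc B p a' x' h
      refine ⟨p, (hmem p).2 ⟨hp, hdm B p a' x' h⟩, a', x', h, ?_, ?_⟩
      · rw [(hev (b.u B) a' NB hsub tB Na na).2.2.2.2.2 (b.u B) (fun z hz => hz), h1]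
      · rw [(hev (b.u B) x' NB hsub tB Nx nx).2.2.2.2.2 (b.u B) (fun z hz => hz), h2]
    · rintro ⟨p, hp, a', x', h, h1, h2⟩
      obtain ⟨-, -, ⟨Na, na⟩, Nx, nx⟩ := hb.sc B p a' x' h
      refine ⟨p, ((hmem p).1 hp).1, a', x', h, ?_, ?_⟩
      · rw [← (hev (b.u B) a' NB hsub tB Na na).2.2.2.2.2 (b.u B) (fun z hz => hz), h1]
      · rw [← (hev (b.u B) x' NB hsub tB Nx nx).2.2.2.2.2 (b.u B) (fun z hz => hz), h2]
  -- part 1 (ii)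
  have s2 : ∀ B ∈ b.Ob, ∀ ρ, D.N ρ → Cld D.L ρ → b.u B ⊆ ρ → ∀ G, D.Gn ρ G → ∀ a x,
      b.Se B G a x → RR D (b.u B) G a ∧ RR D (b.u B) G x := by
    intro B hB ρ Nρ cρ hsub G hG a x
    obtain ⟨-, cB, NB, tB⟩ := hcs B hB
    obtain ⟨hn, -⟩ := hQRN D ok ρ G (b.u B) Nρ cρ hG NB hsub tB
    rintro ⟨p, hp, a', x', h, h1, h2⟩
    obtain ⟨-, -, ⟨Na, na⟩, Nx, nx⟩ := hb.sc B p a' x' h
    exact ⟨(hn a).2 ⟨a', Na, na, h1⟩, (hn x).2 ⟨x', Nx, nx, h2⟩⟩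
  have s3 : ∀ B ∈ b.Ob, ∀ ρ, D.N ρ → Cld D.L ρ → b.u B ⊆ ρ → ∀ G, D.Gn ρ G → ∀ a x,
      (b.Ss D B G a x ↔ b.Ss D B (gs G (b.u B)) a x) := by
    intro B hB ρ Nρ cρ hsub G hG a x
    obtain ⟨-, cB, NB, tB⟩ := hcs B hB
    obtain ⟨-, hn, -⟩ := hQRN D ok ρ G (b.u B) Nρ cρ hG NB hsub tB
    constructor
    · rintro ⟨v, hv, h⟩
      exact ⟨v, (hn v).1 hv, (s1 B hB ρ Nρ cρ hsub G hG _ _).1 h⟩
    · rintro ⟨v, hv, h⟩
      exact ⟨v, (hn v).2 hv, (s1 B hB ρ Nρ cρ hsub G hG _ _).2 h⟩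
  have s4 : ∀ B ∈ b.Ob, ∀ ρ, D.N ρ → Cld D.L ρ → b.u B ⊆ ρ → ∀ G, D.Gn ρ G → ∀ a x,
      Rl x → b.Ss D B G a x → RR D (b.u B) G a ∧ RR D (b.u B) G x := by
    intro B hB ρ Nρ cρ hsub G hG a x hx
    obtain ⟨-, cB, NB, tB⟩ := hcs B hB
    obtain ⟨-, -, -, -, -, hn, -⟩ := hQRN D ok ρ G (b.u B) Nρ cρ hG NB hsub tB
    rintro ⟨v, hv, h⟩
    obtain ⟨h1, h2⟩ := s2 B hB ρ Nρ cρ hsub G hG _ _ h
    exact ⟨h1, (hn x v hx hv.2 h2).1⟩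
  have k1 : ∀ B ∈ b.Ob, ∀ ρ, D.N ρ → Cld D.L ρ → b.u B ⊆ ρ → ∀ G, D.Gn ρ G → ∀ X y,
      (b.Kil D B G X y ↔ b.Kil D B (gs G (b.u B)) X y) := by
    intro B hB ρ Nρ cρ hsub G hG X y
    constructor
    · rintro ⟨a, x, ha, hx, hX, h⟩
      exact ⟨a, x, ha, hx, hX, (s3 B hB ρ Nρ cρ hsub G hG _ _).1 h⟩
    · rintro ⟨a, x, ha, hx, hX, h⟩
      exact ⟨a, x, ha, hx, hX, (s3 B hB ρ Nρ cρ hsub G hG _ _).2 h⟩
  intro B hB ρ Nρ cρ hsub G hG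
  obtain ⟨-, cB, NB, tB⟩ := hcs B hB
  refine ⟨?_, ?_, ?_, ?_⟩
  · intro a x
    exact ⟨s1 B hB ρ Nρ cρ hsub G hG a x, s2 B hB ρ Nρ cρ hsub G hG a x,
      s3 B hB ρ Nρ cρ hsub G hG a x, s4 B hB ρ Nρ cρ hsub G hG a x⟩
  · intro X y
    refine ⟨k1 B hB ρ Nρ cρ hsub G hG X y, ?_⟩
    intro hy
    obtain ⟨-, -, -, -, hp, hn, hk, -⟩ := hQRN D ok ρ G (b.u B) Nρ cρ hG NB hsub tB
    rintro ⟨a, x, ha, hx, hX, h⟩
    obtain ⟨h1, h2⟩ := s4 B hB ρ Nρ cρ hsub G hG a (prl x y) (hAH.1 x y hx hy).1 h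
    obtain ⟨h3, h4⟩ := hn x y hx hy h2
    refine ⟨?_, h4⟩
    rw [hX]
    exact hp _ _ (hk 0) (hp _ _ h1 h3)
  · intro C hC
    obtain ⟨hCo, -, hCB⟩ := hb.leO C B hC
    obtain ⟨-, cC, NC, tC⟩ := hcs C hCo
    have hCρ : b.u C ⊆ ρ := fun z hz => hsub (hCB hz)
    obtain ⟨-, hgs⟩ := hBL D ok ρ G Nρ cρ hG
    obtain ⟨hG1, -, -, -, -, -, hgg⟩ := hgs (b.u B) NB hsub tB
    have hgg' := hgg (b.u C) hCB
    have e1 : ∀ a x, RR D (b.u C) G a → RR D (b.u C) G x →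
        (b.Se C G a x ↔ b.Se B G a x) := by
      intro a x ha hx
      have h1 : RR D (b.u C) (gs G (b.u B)) a := by
        unfold RR
        rw [hgg']
        exact ha
      have h2 : RR D (b.u C) (gs G (b.u B)) x := by
        unfold RR
        rw [hgg']
        exact hx
      have h3 := hb.ab C B hC (gs G (b.u B)) hG1 a x h1 h2
      rw [← s1 B hB ρ Nρ cρ hsub G hG a x] at h3
      rw [s1 C hCo (b.u B) NB cB hCB (gs G (b.u B)) hG1 a x, hgg',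
        ← s1 C hCo ρ Nρ cρ hCρ G hG a x] at h3
      exact h3
    have e2 : ∀ a x, b.Ss D C G a x → b.Ss D B G a x := by
      rintro a x ⟨v, hv, h⟩
      obtain ⟨h1, h2⟩ := s2 C hCo ρ Nρ cρ hCρ G hG _ _ h
      obtain ⟨-, -, -, -, -, -, -, hmon, -⟩ := hQRN D ok ρ G (b.u C) Nρ cρ hG NC hCρ tC
      exact ⟨v, hmon (b.u B) NB hCB hsub tB v hv, (e1 _ _ h1 h2).1 h⟩
    refine ⟨e1, fun a x _ h => e2 a x h, ?_⟩
    rintro X y hy ⟨a, x, ha, hx, hX, h⟩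
    exact ⟨a, x, ha, hx, hX, e2 _ _ h⟩
  · intro π ρ' hI hG'
    have hsl := sl_of_ok hb
    have him : im π (b.u B) = ρ' := (hQI1 D ok b.l b.S π (b.u B) ρ' hsl hI).1.2.2.1
    obtain ⟨-, huT, -⟩ := hb.tr B hB π ρ' hI
    obtain ⟨-, -, -, -, -, h3⟩ := hQI3 D ok b.l b.S π (b.u B) ρ' hsl hI G hG' _ rfl
    obtain ⟨-, -, hRR, -⟩ := h3 (b.u B) NB (fun z hz => hz) tB
    rw [him] at hRR
    have e1 : ∀ a x, (b.Ss D B G a x ↔ b.Ss D (b.T π B) (gi D π ρ' G) a x) := by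
      intro a x
      constructor
      · rintro ⟨v, hv, h⟩
        refine ⟨v, ?_, (hb.trS B hB π ρ' hI G hG' _ _).1 h⟩
        rw [huT]
        exact (hRR v).2 hv
      · rintro ⟨v, hv, h⟩
        rw [huT] at hv
        exact ⟨v, (hRR v).1 hv, (hb.trS B hB π ρ' hI G hG' _ _).2 h⟩
    refine ⟨e1, ?_⟩
    intro X y
    constructor
    · rintro ⟨a, x, ha, hx, hX, h⟩
      exact ⟨a, x, ha, hx, hX, (e1 _ _).1 h⟩
    · rintro ⟨a, x, ha, hx, hX, h⟩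
      exact ⟨a, x, ha, hx, hX, (e1 _ _).2 h⟩

end SE.UZ
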