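import Pool.Agent.H75.UZ.TarKO

/-! KO: Kondo's theorem in models of `ZFC`, from the targets KO3, KO5, KO6, KO7, KO8, KO11. -/

set_option linter.unusedVariables false

open Ordinal Order Set
open scoped ZFSet

namespace SE.UZ

open SF CAA

namespace KOm

theorem prl_mem (hAI : T_AI) {W : V → Prop} (hW : ZFm W) {x y : V} (hx : W x) (hy : W y) :
    W (prl x y) := by
  exact hAI.2.2.1.1 W hW (cons x (cons y fun _ => y))
    (In.cons (In.cons (fun _ => hy) hy) hx)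

end KOm

theorem pf_KO (hAH : T_AH) (hAI : T_AI) (h3 : T_KO3) (h5 : T_KO5) (h6 : T_KO6) (h7 : T_KO7)
    (h8 : T_KO8) (h11 : T_KO11) : T_KO := by
  intro W hW a Wa Ra
  have hZ : ZFm W := hW.toZFCm.toZFm
  obtain ⟨e, j, We, Wj, ke⟩ := h5 W hZ
  obtain ⟨b, Wb, Rb, hb⟩ := h11 W hZ e j We Wj ke a Wa Ra
  obtain ⟨-, -, -, h3u, -, h3l⟩ := h3
  -- the set with the code `a`
  have hS : ∀ z, ¬ SgH W 1 a z ↔ ∀ v, W v → Rl v → Opn a (prl z v) := by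
    intro z
    constructor
    · intro h v Wv Rv
      by_contra hv
      exact h ⟨v, Wv, Rv, hv⟩
    · rintro h ⟨v, Wv, Rv, hv⟩
      exact hv (h v Wv Rv)
  have hM : ∀ x y, W x → Rl x → W y → Rl y → (∀ v, W v → Rl v → Opn a (prl (prl x y) v)) →
      ∃ c, Mm W a x y c := by
    intro x y Wx Rx Wy Ry h
    obtain ⟨c, Wc, hc⟩ := (h3l W hW.toZFCm a (prl x y) Wa Ra (KOm.prl_mem hAI hZ Wx Wy)
      (hAH.1 x y Rx Ry).1).1 h
    exact ⟨c, Wy, Ry, Wc, hc⟩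
  have hM' : ∀ x y c, W x → Rl x → Mm W a x y c → ∀ v, W v → Rl v → Opn a (prl (prl x y) v) := by
    intro x y c Wx Rx h
    exact (h3l W hW.toZFCm a (prl x y) Wa Ra (KOm.prl_mem hAI hZ Wx h.wy)
      (hAH.1 x y Rx h.ry).1).2 ⟨c, h.wc, h.cp⟩
  refine ⟨b, Wb, Rb, ?_, ?_, ?_⟩
  · -- contained
    intro x y Wx Rx Wy Ry h
    rw [hS]
    exact ((hb x y Wx Rx Wy Ry).1 h).1
  · -- functional
    have key : ∀ x y ys cs, W x → Rl x → W y → Rl y → Lst W e j a x ys cs →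
        ¬ SgH W 1 b (prl x y) → y = ys := by
      intro x y ys cs Wx Rx Wy Ry hL hF
      obtain ⟨h1, h2⟩ := (hb x y Wx Rx Wy Ry).1 hF
      obtain ⟨c, hc⟩ := hM x y Wx Rx Wy Ry h1
      rcases hL.l y c hc with h | ⟨n, hn, hn'⟩
      · exact h.symm
      · exfalso
        obtain ⟨w, Ww, Rw, hw⟩ := h8 W hZ e j We Wj ke a x Wa Ra Wx Rx y c ys cs hc hL.m n hn hn'
        exact h2 ys w hL.m.wy hL.m.ry Ww Rw hw
    intro x y z Wx Rx Wy Ry Wz Rz hy hz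
    obtain ⟨c, hc⟩ := hM x y Wx Rx Wy Ry ((hb x y Wx Rx Wy Ry).1 hy).1
    obtain ⟨ys, cs, hL⟩ := h6 W hW e j We Wj ke a x Wa Ra Wx Rx ⟨y, c, hc⟩
    rw [key x y ys cs Wx Rx Wy Ry hL hy, key x z ys cs Wx Rx Wz Rz hL hz]
  · -- total
    intro x y Wx Rx Wy Ry hA
    rw [hS] at hA
    obtain ⟨c, hc⟩ := hM x y Wx Rx Wy Ry hA
    obtain ⟨ys, cs, hL⟩ := h6 W hW e j We Wj ke a x Wa Ra Wx Rx ⟨y, c, hc⟩
    refine ⟨ys, hL.m.wy, hL.m.ry, ?_⟩
    rw [hb x ys Wx Rx hL.m.wy hL.m.ry]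
    refine ⟨hM' x ys cs Wx Rx hL.m, ?_⟩
    intro y' w Wy' Ry' Ww Rw hI
    obtain ⟨c', hm', n, hn, hn'⟩ := h7 W hW.toZFCm e j We Wj ke a x Wa Ra Wx Rx ys cs y' w hL.m
      Wy' Ry' Ww Rw hI
    rcases hL.l y' c' hm' with h | ⟨m, hm, hmm⟩
    · subst h
      have hv : Kv e j ys c' (nS n) = Kv e j ys cs (nS n) := by
        unfold Kv
        rw [h3u _ c' cs hm'.cp hL.m.cp]
      rw [hv] at hn'
      exact ZFSet.mem_irrefl _ hn'
    · rcases lt_trichotomy m n with hlt | heq | hgt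
      · exact ZFSet.mem_irrefl _ (hn m hlt hmm)
      · subst heq
        exact ZFSet.mem_asymm hn' hmm
      · rw [← hm n hgt] at hn'
        exact ZFSet.mem_irrefl _ hn'

end SE.UZ
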